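import Pool.Agent.H43.Sp2

open Set Filter Topology Pool.Agent.H43.Sp

namespace Pool.Agent.Results.MP_906def_an.Discont

theorem result : ∃ (E : Type) (_ : Countable E) (_ : Infinite E) (r b : E → ℝ), SimIFS r b ∧
    ¬ ContinuousOn (locDim {x | ∃ F : Set E, (dimH (J (sim r b) F)).toReal = x})
      {x | ∃ F : Set E, (dimH (J (sim r b) F)).toReal = x} := by
  refine ⟨A, inferInstance, inferInstance, r, b, ifs, fun h => ?_⟩
  have h1 : Ioc 0 (1 / 2) ⊆ range (D r b) := fun s hs => by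
    obtain ⟨F, -, e⟩ := full hs.1 hs.2; exact ⟨F, e⟩
  have h2 : ∀ k, sk k ∈ range (D r b) := fun k => by
    obtain ⟨F, -, e⟩ := block k; exact ⟨F, e⟩
  have h3 : Tendsto (fun k => locDim (range (D r b)) (sk k)) atTop
      (𝓝 (locDim (range (D r b)) (1 / 2))) :=
    (h (1 / 2) (h1 ⟨by norm_num, le_rfl⟩)).tendsto.comp
      (tendsto_nhdsWithin_iff.2 ⟨sk_lim, Eventually.of_forall h2⟩)
  simp only [loc0 subset_rfl (sk_gt _), loc1 h1] at h3
  exact zero_ne_one (tendsto_nhds_unique tendsto_const_nhds h3)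

end Pool.Agent.Results.MP_906def_an.Discont
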